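import Pool.Agent.Lib.MP_39b545_nt.Half.Final

set_option autoImplicit false

namespace Pool.Agent.Results.MP_39b545_nt.AlmostPrimeChains

open Finset

/-- The `i`-th term `a_i = 2^i (n - 1) + 1` of the second-kind sequence starting at `n`. -/
def term (n i : ℕ) : ℕ := 2 ^ i * (n - 1) + 1

/-- The number of prime factors, counted with multiplicity. -/
def Om (n : ℕ) : ℕ := n.primeFactorsList.length

/-- `n` starts a chain of `k` almost primes: `a_0, ..., a_(k-1)` have no prime factor `≤ y` and at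
most `C` prime factors (with multiplicity), each of them either `≤ C` or `≥ N^(1/C)`, and the next
term `a_k` is a proper multiple of a prime `≤ C`. -/
def Chain (k y C N n : ℕ) : Prop :=
  (∀ i < k, Om (term n i) ≤ C ∧
    ∀ p : ℕ, p.Prime → p ∣ term n i → y < p ∧ (p ≤ C ∨ N ≤ p ^ C)) ∧
  (∃ p : ℕ, p.Prime ∧ p ≤ C ∧ p ∣ term n k ∧ p < term n k)

open Classical in
theorem result :
    (∀ (k y m r : ℕ), 0 < m → ∃ C : ℕ, ∀ N : ℕ, C ≤ N → (N : ℝ) / (Real.log N) ^ C ≤
      (((Icc 1 N).filter (fun n => Chain k y C N n ∧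
        k ≤ m * ((range k).filter (fun i => Om (term n i) ≡ r [MOD m])).card)).card : ℝ)) ∧
    (∀ (k y m : ℕ) (_ : 0 < m) (g : ℕ → ℕ → ℝ), (∀ i < k, ∑ x ∈ range m, g i x = 0) →
      ∃ C : ℕ, ∀ N : ℕ, C ≤ N → (N : ℝ) / (Real.log N) ^ C ≤
      (((Icc 1 N).filter (fun n => Chain k y C N n ∧
        ∑ i ∈ range k, g i (Om (term n i) % m) ≤ 0)).card : ℝ)) := by
  have gen : ∀ (k y m : ℕ) (_ : 0 < m) (g : ℕ → ℕ → ℝ), (∀ i < k, ∑ x ∈ range m, g i x = 0) →
      ∃ C : ℕ, ∀ N : ℕ, C ≤ N → (N : ℝ) / (Real.log N) ^ C ≤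
      (((Icc 1 N).filter (fun n => Chain k y C N n ∧
        ∑ i ∈ range k, g i (Om (term n i) % m) ≤ 0)).card : ℝ) := by
    intro k y m hm g hg
    have : NeZero m := ⟨hm.ne'⟩
    obtain ⟨C, hC⟩ := Pool.Agent.Lib.MP_39b545_nt.Half.count_GX k y m
      (fun i x => g i x.val) (by
        intro i hi
        rw [← hg i hi, ← Fin.sum_univ_eq_sum_range (fun x => g i x) m]
        obtain ⟨m', rfl⟩ : ∃ m', m = m' + 1 := ⟨m - 1, by omega⟩
        rfl)
    refine ⟨C, fun N hN => (hC N hN).trans ?_⟩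
    have h1 : (Pool.Agent.Lib.MP_39b545_nt.Half.GX k y m C N (fun i x => g i x.val)).card ≤
        ((Icc 1 N).filter (fun n => Chain k y C N n ∧
          ∑ i ∈ range k, g i (Om (term n i) % m) ≤ 0)).card := by
      refine card_le_card_of_injOn (fun x => x + 1) ?_ ?_
      · intro x hx
        rw [mem_coe, Pool.Agent.Lib.MP_39b545_nt.Half.mem_GX] at hx
        obtain ⟨hxN, h1, h2, h3⟩ := hx
        rw [mem_coe, mem_filter, mem_Icc]
        have hx1 : 1 ≤ x + 1 ∧ x + 1 ≤ N := ⟨by omega, by omega⟩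
        refine ⟨hx1, ⟨h1, h2⟩, ?_⟩
        refine le_trans (le_of_eq ?_) h3
        refine sum_congr rfl fun i _ => ?_
        show g i (Om (term (x + 1) i) % m) = g i (ZMod.val ((ArithmeticFunction.cardFactors
          (Pool.Agent.Lib.MP_39b545_nt.Half.tm x i) : ℕ) : ZMod m))
        rw [ZMod.val_natCast]
        rfl
      · intro x _ x' _ h
        exact Nat.add_right_cancel h
    exact_mod_cast h1
  refine ⟨?_, gen⟩
  intro k y m r hm
  obtain ⟨C, hC⟩ := gen k y m hm (fun _ x => 1 / (m : ℝ) - if x = r % m then 1 else 0) (by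
    intro i _
    rw [sum_sub_distrib, sum_const, card_range, nsmul_eq_mul, sum_ite_eq' (range m) (r % m),
      if_pos (mem_range.2 (Nat.mod_lt _ hm))]
    have : (m : ℝ) ≠ 0 := by exact_mod_cast hm.ne'
    field_simp
    ring)
  refine ⟨C, fun N hN => (hC N hN).trans ?_⟩
  have hm0 : (0 : ℝ) < m := by exact_mod_cast hm
  have h1 : ((Icc 1 N).filter (fun n => Chain k y C N n ∧ ∑ i ∈ range k,
      (1 / (m : ℝ) - if Om (term n i) % m = r % m then 1 else 0) ≤ 0)).card ≤
      ((Icc 1 N).filter (fun n => Chain k y C N n ∧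
        k ≤ m * ((range k).filter (fun i => Om (term n i) ≡ r [MOD m])).card)).card := by
    refine card_le_card fun n hn => ?_
    rw [mem_filter] at hn ⊢
    refine ⟨hn.1, hn.2.1, ?_⟩
    have h2 := hn.2.2
    rw [sum_sub_distrib, sum_const, card_range, nsmul_eq_mul, ← sum_filter, sum_const,
      nsmul_eq_mul, mul_one, mul_one_div, sub_nonpos, div_le_iff₀ hm0] at h2
    have h3 : (range k).filter (fun i => Om (term n i) ≡ r [MOD m]) =
        (range k).filter (fun i => Om (term n i) % m = r % m) := rfl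
    rw [h3, mul_comm]
    exact_mod_cast h2
  exact_mod_cast h1

end Pool.Agent.Results.MP_39b545_nt.AlmostPrimeChains
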