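import Pool.Agent.Lib.MP_39b545_nt.Long.UT3

set_option autoImplicit false

namespace Pool.Agent.Results.MP_39b545_nt.LongChains

open Pool.Agent.Lib.MP_39b545_nt.Long

/-- Upper bound, uniform in the length `k`, for the number of primes starting a second-kind
Cunningham chain of length at least `k`. -/
theorem result (ε : ℝ) (hε : 0 < ε) (hε4 : ε < 1 / 4) :
    ∃ C : ℝ, ∀ X k : ℕ, 2 ≤ X → 2 ≤ k → ∀ w : ℝ,
      w = (1 / 4 - ε) * Real.log X / Real.log k →
      ({p : ℕ | p ≤ X ∧ ∀ i < k, (2 ^ i * (p - 1) + 1).Prime}.ncard : ℝ) ≤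
        X * (C * min (k : ℝ) w / max (k / Real.log k) w) ^ min (k : ℝ) w := by
  obtain ⟨C₀, hC₀, h⟩ := uniform_bound ε hε hε4.le
  have hθ : 0 < 1 / 4 - ε := by linarith
  set C := C₀ / (1 / 4 - ε) + 1 with hC
  have hC1 : 1 ≤ C := by
    have : 0 ≤ C₀ / (1 / 4 - ε) := by positivity
    linarith
  have hC4 : C₀ ≤ C * (1 / 4 - ε) := by
    rw [hC, add_mul, div_mul_cancel₀ _ hθ.ne']
    linarith
  have hC5 : C₀ ≤ C / 4 := by
    have : C * (1 / 4 - ε) ≤ C * (1 / 4) := mul_le_mul_of_nonneg_left (by linarith) (by linarith)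
    linarith
  refine ⟨C, fun X k hX hk w hw => ?_⟩
  have hmain := h X k hX hk
  have hkr : (2 : ℝ) ≤ k := by exact_mod_cast hk
  have hXr : (2 : ℝ) ≤ X := by exact_mod_cast hX
  have hl2 := Real.log_two_gt_d9
  have hlk : Real.log 2 ≤ Real.log k := Real.log_le_log (by norm_num) hkr
  have hlk0 : 0 < Real.log k := by linarith
  have hlX : 0 < Real.log X := Real.log_pos (by linarith)
  have hX0 : (0 : ℝ) ≤ X := by linarith
  have hw0 : 0 < w := by
    rw [hw]
    positivity
  have hwl : w * Real.log k = (1 / 4 - ε) * Real.log X := by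
    rw [hw]
    field_simp
  have hmax0 : 0 < max (k / Real.log k) w := lt_of_lt_of_le hw0 (le_max_right _ _)
  rw [mul_min_of_nonneg _ _ hX0, le_min_iff] at hmain
  obtain ⟨h1, h2⟩ := hmain
  rcases le_or_gt (k : ℝ) w with hkw | hkw
  · rw [min_eq_left hkw, Real.rpow_natCast]
    refine h1.trans ?_
    apply mul_le_mul_of_nonneg_left _ hX0
    apply pow_le_pow_left₀ (by positivity)
    rw [div_le_div_iff₀ hlX hmax0]
    have h3 : max (k / Real.log k) w ≤ 2 * w := by
      apply max_le
      · rw [div_le_iff₀ hlk0]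
        nlinarith
      · linarith
    calc C₀ * k * Real.log k * max (k / Real.log k) w ≤ C₀ * k * Real.log k * (2 * w) :=
          mul_le_mul_of_nonneg_left h3 (by positivity)
      _ = 2 * C₀ * k * (w * Real.log k) := by ring
      _ = 2 * C₀ * k * ((1 / 4 - ε) * Real.log X) := by rw [hwl]
      _ ≤ C * k * Real.log X := by
          have h4 : 2 * C₀ * (1 / 4 - ε) ≤ C := by nlinarith
          have h5 : 0 ≤ k * Real.log X := by positivity
          nlinarith
  · rw [min_eq_right hkw.le]
    rcases le_or_gt w (k / Real.log k) with hk2 | hk2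
    · rw [max_eq_left hk2]
      have h3 : (1 / 4 - ε) * Real.log X / Real.log k = w := hw.symm
      rw [h3] at h2
      refine h2.trans ?_
      apply mul_le_mul_of_nonneg_left _ hX0
      apply Real.rpow_le_rpow (by positivity) _ hw0.le
      rw [div_div_eq_mul_div]
      apply div_le_div_of_nonneg_right _ (by linarith)
      calc C₀ * Real.log X ≤ C * (1 / 4 - ε) * Real.log X :=
            mul_le_mul_of_nonneg_right hC4 hlX.le
        _ = C * w * Real.log k := by rw [mul_assoc, mul_assoc, hwl]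
    · rw [max_eq_right hk2.le, mul_div_assoc, div_self hw0.ne', mul_one]
      have h3 := chainSet_le k X (by omega)
      have h4 : ({p : ℕ | p ≤ X ∧ ∀ i < k, (2 ^ i * (p - 1) + 1).Prime}.ncard : ℝ) ≤ X := by
        exact_mod_cast h3
      exact h4.trans (le_mul_of_one_le_right hX0 (Real.one_le_rpow hC1 hw0.le))

end Pool.Agent.Results.MP_39b545_nt.LongChains
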