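import Mathlib
import Pool.Agent.Lib.RoughForms.Gen
import Pool.Agent.Lib.MP_39b545_nt.Parity

/-!
MP_39b545_nt: for many `n ≤ N` the numbers `2^i (n - 1) + 1`, `i < k`, are almost primes and the
total number of prime factors of those with index in `J` has the parity of `|J|`.
-/

set_option autoImplicit false

namespace Pool.Agent.Results.MP_39b545_nt.ProductParity

open Finset Pool.Agent.Lib.RoughForms Pool.Agent.Lib.MP_39b545_nt.Parity

/-- Liouville function with values in the units -/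
def lam (n : ℕ) : ℤˣ := (-1) ^ ArithmeticFunction.cardFactors n

theorem lam_mul (a b : ℕ) (ha : 0 < a) (hb : 0 < b) : lam (a * b) = lam a * lam b := by
  unfold lam
  rw [ArithmeticFunction.cardFactors_mul ha.ne' hb.ne', pow_add]

theorem lam_prod (J : Finset ℕ) (a : ℕ → ℕ) (ha : ∀ j ∈ J, 0 < a j) :
    lam (∏ j ∈ J, a j) = ∏ j ∈ J, lam (a j) := by
  classical
  induction J using Finset.induction with
  | empty => simp [lam]
  | insert j J hj ih =>
    rw [Finset.prod_insert hj, Finset.prod_insert hj, lam_mul _ _ (ha j (mem_insert_self _ _))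
      (Finset.prod_pos (fun i hi => ha i (mem_insert_of_mem hi))),
      ih (fun i hi => ha i (mem_insert_of_mem hi))]

theorem rel_lam (V : ℕ) (hV : 0 < V) : Rel lam (fun w x => lam (w * V + x)) where
  scal := by
    intro c w x hc hw
    rw [← lam_mul c (w * V + x) hc (by positivity)]
    congr 1
    ring
  mul := lam_mul

theorem lam_two : lam 2 = -1 := by
  unfold lam
  rw [ArithmeticFunction.cardFactors_apply_prime Nat.prime_two, pow_one]

/-- one of the numbers `w V + x` is good -/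
theorem exists_good (J : Finset ℕ) (h0 : 0 ∈ J) (hpar : Odd J.card ∨ Even (∑ j ∈ J, j)) :
    ∃ W X : ℕ, ∀ V : ℕ, 0 < V → ∃ w x : ℕ, 0 < w ∧ w ≤ W ∧ x ≤ X ∧
      ArithmeticFunction.cardFactors (∏ j ∈ J, (2 ^ j * (w * V + x) + 1)) ≡ J.card [MOD 2] := by
  obtain ⟨W, X, h⟩ := formal J h0 hpar
  refine ⟨W, X, fun V hV => ?_⟩
  obtain ⟨w, x, hw, hwW, hxX, hprod⟩ := h lam _ (rel_lam V hV) lam_two
  refine ⟨w, x, hw, hwW, hxX, ?_⟩
  have h1 : ∏ j ∈ J, lam (2 ^ j * w * V + (2 ^ j * x + 1)) =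
      lam (∏ j ∈ J, (2 ^ j * (w * V + x) + 1)) := by
    rw [lam_prod J _ (fun j _ => by positivity)]
    apply Finset.prod_congr rfl
    intro j _
    congr 1
    ring
  rw [h1] at hprod
  unfold lam at hprod
  rcases Nat.even_or_odd (ArithmeticFunction.cardFactors
      (∏ j ∈ J, (2 ^ j * (w * V + x) + 1))) with he | ho
  · rcases Nat.even_or_odd J.card with he' | ho'
    · rw [Nat.ModEq, Nat.even_iff.1 he, Nat.even_iff.1 he']
    · rw [he.neg_one_pow, ho'.neg_one_pow] at hprod
      exact absurd hprod (by decide)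
  · rcases Nat.even_or_odd J.card with he' | ho'
    · rw [ho.neg_one_pow, he'.neg_one_pow] at hprod
      exact absurd hprod (by decide)
    · rw [Nat.ModEq, Nat.odd_iff.1 ho, Nat.odd_iff.1 ho']

theorem result (k : ℕ) (J : Finset ℕ) (h0 : 0 ∈ J)
    (hpar : Odd J.card ∨ Even (∑ j ∈ J, j)) :
    ∃ C : ℕ, ∀ N : ℕ, C ≤ N → ∃ A : Finset ℕ,
      (N : ℝ) ≤ (Real.log N) ^ C * (A.card : ℝ) ∧
      ∀ n ∈ A, 0 < n ∧ n ≤ N ∧
        (∀ i < k, ArithmeticFunction.cardFactors (2 ^ i * (n - 1) + 1) ≤ C ∧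
          ∀ p : ℕ, p.Prime → p ∣ 2 ^ i * (n - 1) + 1 → p ≤ C ∨ N ≤ p ^ C) ∧
        ArithmeticFunction.cardFactors (∏ j ∈ J, (2 ^ j * (n - 1) + 1)) ≡ J.card [MOD 2] := by
  classical
  obtain ⟨W, X, hgood⟩ := exists_good J h0 hpar
  -- parameters
  set I : Finset (ℕ × ℕ × ℕ) := Icc 1 W ×ˢ (range (X + 1) ×ˢ range k) with hI
  obtain ⟨D, hD⟩ : ∃ D : ℕ, D = I.card + 2 ^ k * W + 1 := ⟨_, rfl⟩
  obtain ⟨κ, hκ⟩ : ∃ κ : ℕ, κ = 2 ^ (k + 1) * (W + 1) * (X + 1) := ⟨_, rfl⟩
  have hκpos : 0 < κ := by rw [hκ]; positivity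
  obtain ⟨N0, hrough⟩ := rough_forms D κ (by omega) hκpos
  set c : ℕ × ℕ × ℕ → ℤ := fun t => ((2 ^ t.2.2 * t.1 : ℕ) : ℤ) with hc
  set m : ℕ × ℕ × ℕ → ℤ := fun t => ((2 ^ t.2.2 * t.2.1 + 1 : ℕ) : ℤ) with hm
  obtain ⟨C, hC⟩ : ∃ C : ℕ, C = N0 + D * (2 * D) + (16 * D + 15) + 10 +
      4 * (κ + 2 ^ k * X + 1) := ⟨_, rfl⟩
  refine ⟨C, fun N hN => ?_⟩
  obtain ⟨z, hz2, hz, hgen⟩ := hrough N (by omega)
  have hcI : ∀ t ∈ I, c t ≠ 0 ∧ |c t| ≤ D := by
    intro t ht
    rw [hI, mem_product, mem_product, mem_Icc, mem_range, mem_range] at ht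
    obtain ⟨⟨h1, h2⟩, h3, h4⟩ := ht
    have h5 : 0 < 2 ^ t.2.2 * t.1 := by positivity
    have h6 : 2 ^ t.2.2 * t.1 ≤ 2 ^ k * W :=
      Nat.mul_le_mul (Nat.pow_le_pow_right (by norm_num) h4.le) h2
    rw [hc]
    simp only
    refine ⟨by omega, ?_⟩
    rw [abs_of_nonneg (by positivity)]
    omega
  obtain ⟨S, hS1, hS2⟩ := hgen _ I c m (by omega) hcI 1
  have hVpos : ∀ V ∈ S, 0 < V.toNat ∧ ((V.toNat : ℕ) : ℤ) = V := by
    intro V hV
    have := (hS2 V hV).1
    constructor <;> omega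
  have hex : ∀ V : ℤ, V ∈ S → ∃ w x : ℕ, 0 < w ∧ w ≤ W ∧ x ≤ X ∧
      ArithmeticFunction.cardFactors (∏ j ∈ J, (2 ^ j * (w * V.toNat + x) + 1)) ≡
        J.card [MOD 2] := fun V hV => hgood V.toNat (hVpos V hV).1
  choose! w x hw hwW hxX hpr using hex
  refine ⟨S.image (fun V => w V * V.toNat + x V + 1), ?_, ?_⟩
  · -- count
    have hcard : S.card ≤ ((S.image (fun V => w V * V.toNat + x V + 1)) ×ˢ
        (range (W + 1) ×ˢ range (X + 1))).card := by
      apply Finset.card_le_card_of_injOn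
        (fun V => (w V * V.toNat + x V + 1, (w V, x V)))
      · intro V hV
        have h1 := hwW V hV
        have h2 := hxX V hV
        rw [Finset.mem_coe, mem_product, mem_product, mem_range, mem_range]
        exact ⟨mem_image_of_mem _ hV, by simp only; omega, by simp only; omega⟩
      · intro V hV V' hV' heq
        simp only [Prod.mk.injEq] at heq
        obtain ⟨e1, e2, e3⟩ := heq
        rw [e2, e3] at e1
        have h3 : w V' * V.toNat = w V' * V'.toNat := by omega
        have h4 := Nat.eq_of_mul_eq_mul_left (hw V' hV') h3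
        have h5 := (hVpos V hV).2
        have h6 := (hVpos V' hV').2
        rw [← h5, ← h6, h4]
    rw [card_product, card_product, card_range, card_range] at hcard
    set a := (S.image (fun V => w V * V.toNat + x V + 1)).card with ha
    have hlog1 : 1 ≤ Real.log N := by
      have h1 : (3 : ℝ) ≤ N := by
        have : 3 ≤ N := by omega
        exact_mod_cast this
      rw [Real.le_log_iff_exp_le (by linarith)]
      have := Real.exp_one_lt_d9
      linarith
    have hpow : (Real.log N) ^ (2 * D + 2) ≤ (Real.log N) ^ C :=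
      pow_le_pow_right₀ hlog1 (by omega)
    have hy0 : 0 ≤ (Real.log N) ^ (2 * D + 2) := by positivity
    have h1 : (S.card : ℝ) ≤ a * κ := by
      have h2 : S.card ≤ a * κ := by
        refine hcard.trans (Nat.mul_le_mul_left _ ?_)
        rw [hκ, mul_assoc]
        exact Nat.le_mul_of_pos_left _ (by positivity)
      exact_mod_cast h2
    have hκ0 : (0 : ℝ) < κ := by exact_mod_cast hκpos
    have h3 : (κ : ℝ) * N ≤ κ * ((Real.log N) ^ (2 * D + 2) * a) := by
      calc (κ : ℝ) * N ≤ (Real.log N) ^ (2 * D + 2) * (S.card : ℝ) := hS1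
        _ ≤ (Real.log N) ^ (2 * D + 2) * (a * κ) := mul_le_mul_of_nonneg_left h1 hy0
        _ = _ := by ring
    have h4 := le_of_mul_le_mul_left h3 hκ0
    exact h4.trans (mul_le_mul_of_nonneg_right hpow (by positivity))
  · intro n hn
    obtain ⟨V, hV, rfl⟩ := Finset.mem_image.1 hn
    obtain ⟨g1, g2, g3, g4⟩ := hS2 V hV
    obtain ⟨hv1, hv2⟩ := hVpos V hV
    have hw1 := hw V hV
    have hw2 := hwW V hV
    have hx1 := hxX V hV
    have hp1 := hpr V hV
    generalize w V = w0 at *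
    generalize x V = x0 at *
    set v := V.toNat with hv
    -- size
    have hκv : κ * v ≤ κ + N := by
      have : (κ : ℤ) * v ≤ κ + N := by rw [hv2]; linarith
      exact_mod_cast this
    have hsize : ∀ i ≤ k, 2 ^ i * (w0 * v + x0) + 1 ≤ N := by
      intro i hi
      have h1 : 2 ^ i ≤ 2 ^ k := Nat.pow_le_pow_right (by norm_num) hi
      have h2 : 2 ^ i * (w0 * v + x0) ≤ 2 ^ k * (W * v + X) :=
        Nat.mul_le_mul h1 (Nat.add_le_add (Nat.mul_le_mul_right _ hw2) hx1)
      have h3 : 2 * (2 ^ k * (W * v)) ≤ κ * v := by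
        calc 2 * (2 ^ k * (W * v)) = 2 ^ (k + 1) * W * 1 * v := by rw [pow_succ]; ring
          _ ≤ κ * v := by
            apply Nat.mul_le_mul_right
            rw [hκ]
            exact Nat.mul_le_mul (Nat.mul_le_mul_left _ (by omega)) (by omega)
      have h4 : 2 ^ k * (W * v + X) = 2 ^ k * (W * v) + 2 ^ k * X := by ring
      omega
    have e1 : w0 * v + x0 + 1 - 1 = w0 * v + x0 := by omega
    rw [e1]
    refine ⟨by omega, ?_, ?_, hp1⟩
    · have := hsize 0 (Nat.zero_le _)
      rw [pow_zero, one_mul] at this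
      exact this
    · intro i hi
      have hmem : (w0, x0, i) ∈ I := by
        rw [hI, mem_product, mem_product, mem_Icc, mem_range, mem_range]
        simp only
        omega
      have e2 : ((2 ^ i * (w0 * v + x0) + 1 : ℕ) : ℤ) = c (w0, x0, i) * V + m (w0, x0, i) := by
        rw [hc, hm]
        simp only
        rw [← hv2]
        push_cast
        ring
      have hr := rough_num (D := D) (n := 2 ^ i * (w0 * v + x0) + 1) hz2 hz (by omega)
        (hsize i hi.le) (by
          intro p hp hpD hd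
          apply g3 p hp hpD _ hmem
          rw [← e2]; exact hd) (by
          intro q hq hqD hqz hd
          apply g4 q hq hqD hqz _ hmem
          rw [← e2]; exact hd)
      refine ⟨hr.2.trans (by omega), ?_⟩
      intro p hp hd
      rcases hr.1 p hp hd with h1 | h1
      · left; omega
      · right
        have h2 : z ^ (16 * D + 15) ≤ p ^ (16 * D + 15) := Nat.pow_le_pow_left h1.le _
        have h3 : p ^ (16 * D + 15) ≤ p ^ C := Nat.pow_le_pow_right hp.pos (by omega)
        omega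

end Pool.Agent.Results.MP_39b545_nt.ProductParity
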