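import Mathlib
import Pool.Agent.Lib.MT2.All2c

/-!
MP_39b545_nt: two prescribed terms of a chain `a_i = 2 ^ i (n - 1) + 1` of `k` almost primes are
bounded multiples of primes, with prescribed residues of their numbers of prime factors.
-/

set_option autoImplicit false

namespace Pool.Agent.Results.MP_39b545_nt.TwoPrimeTerms

open ArithmeticFunction (cardFactors)

/-- `x = d p` with `1 ≤ d ≤ C` and `p` prime -/
def PrimeMult (C x : ℕ) : Prop := ∃ d p : ℕ, x = d * p ∧ 1 ≤ d ∧ d ≤ C ∧ p.Prime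

/-- all prime factors are at most `C` or at least `N ^ (1 / C)`, and there are at most `C` of them,
counted with multiplicity -/
def AlmostPrime (C N n : ℕ) : Prop :=
  cardFactors n ≤ C ∧ ∀ p : ℕ, p.Prime → p ∣ n → p ≤ C ∨ N ≤ p ^ C

/-- For all `k`, `j ≥ 1`, `m ≥ 1` and `r` there is `C` such that for every `N ≥ C` at least
`N / (log N) ^ C` integers `n ∈ [1, N]` have: `a_0 = n` and `a_j = 2 ^ j (n - 1) + 1` are both of
the form `d p` with `p` prime, `d ≤ C`, `Ω(a_0) ≡ r (mod m)`, `Ω(a_j) = Ω(a_0) + j`, and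
`a_0, ..., a_(k-1)` are almost primes. -/
theorem result (k j m r : ℕ) (hm : 0 < m) (hj : 0 < j) : ∃ C : ℕ, ∀ N : ℕ, C ≤ N →
    ∃ S : Finset ℕ, (N : ℝ) / (Real.log N) ^ C ≤ (S.card : ℝ) ∧ ∀ n ∈ S, 1 ≤ n ∧ n ≤ N ∧
      PrimeMult C n ∧ PrimeMult C (2 ^ j * (n - 1) + 1) ∧
      cardFactors n ≡ r [MOD m] ∧
      cardFactors (2 ^ j * (n - 1) + 1) = cardFactors n + j ∧
      ∀ i < k, AlmostPrime C N (2 ^ i * (n - 1) + 1) :=
  Pool.Agent.Lib.MT2.All2c.c_all k j m r hm hj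

end Pool.Agent.Results.MP_39b545_nt.TwoPrimeTerms
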